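import Pool.Agent.H77.SH.Final

/-!
# Drawing plane graphs on open segments with open obstacles is hard for the existential theory
of the reals

Every language which reduces in polynomial time to the existential theory of the reals reduces in
polynomial time to the drawing problem restricted to instances all of whose segments are open. The
graphs of the instances are forests, no segment is degenerate, and the instances have a drawing if
and only if they have one when the embedding is not prescribed.
-/

set_option autoImplicit false

namespace Pool.Agent.Results.MP_1eee10_lc.OpenHard

open Pool.Agent.H77.SG Turing

theorem result : ∀ L : Set (List Bool), InER L → ∃ f : List Bool → Inst,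
    Nonempty (TM2ComputableInPolyTime (id : List Bool → List Bool) encInst f) ∧
    ∀ x, (f x).Valid ∧ (f x).AllOpen ∧ (f x).Proper ∧ (x ∈ L ↔ (f x).Yes) ∧
      (x ∈ L ↔ ∃ P, (f x).Plain P) :=
  fun _ hL => Pool.Agent.H77.SH.open_hard hL

end Pool.Agent.Results.MP_1eee10_lc.OpenHard
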